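import Pool.Agent.Q21.DW.Gen

set_option autoImplicit false

/-! From moments to a power saving. -/

namespace Pool.Agent.Q21.DW

open Filter Set

lemma cheb (w : ℕ → ℝ) (hw : ∀ n, 0 ≤ w n) (K : ℝ) (N₀ : ℕ)
    (hK : ∀ N : ℕ, N₀ ≤ N → ∑ n ∈ Finset.Icc 1 N, w n ≤ K * N) (v : ℝ) (hv : 0 < v) (hv1 : v < 1)
    (B : ℕ → Prop) (hB : ∀ n : ℕ, 1 ≤ n → B n → (n : ℝ) ^ v ≤ w n) :
    ∃ C : ℝ, ∀ N : ℕ, 1 ≤ N →
      (((open Classical in (Finset.Icc 1 N).filter B).card : ℕ) : ℝ) ≤ C * (N : ℝ) ^ (1 - v) := by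
  classical
  set u : ℝ := 1 - v with hu
  have hu0 : 0 < u := by rw [hu]; linarith
  set q : ℝ := (1 / 2 : ℝ) ^ u with hq
  have hq0 : 0 < q := by positivity
  have hq1 : q < 1 := Real.rpow_lt_one (by norm_num) (by norm_num) hu0
  set K' : ℝ := |K| * 2 ^ v with hK'
  set C : ℝ := max ((N₀ : ℝ) + 1) (K' / (1 - q)) with hC
  have hC0 : 0 < C := lt_max_of_lt_left (by positivity)
  have hC1 : K' ≤ C * (1 - q) := by
    rw [← div_le_iff₀ (by linarith)]
    exact le_max_right _ _
  have hC2 : (N₀ : ℝ) + 1 ≤ C := le_max_left _ _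
  refine ⟨C, fun N => ?_⟩
  induction N using Nat.strong_induction_on with
  | _ N ih =>
    intro hN
    have hN1 : (1 : ℝ) ≤ N := by exact_mod_cast hN
    have hNu : (1 : ℝ) ≤ (N : ℝ) ^ u := Real.one_le_rpow hN1 hu0.le
    rcases lt_or_ge N (max N₀ 2) with h1 | h1
    · have h2 : (((Finset.Icc 1 N).filter B).card : ℝ) ≤ N := by
        have h3 : ((Finset.Icc 1 N).filter B).card ≤ N :=
          (Finset.card_filter_le _ _).trans (by rw [Nat.card_Icc]; omega)
        exact_mod_cast h3
      have h3 : (N : ℝ) ≤ (N₀ : ℝ) + 1 := by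
        have : N ≤ N₀ + 1 := by omega
        exact_mod_cast this
      nlinarith
    · have h2 : 2 ≤ N := (le_max_right _ _).trans h1
      have h3 : N₀ ≤ N := (le_max_left _ _).trans h1
      have h4 := ih (N / 2) (by omega) (by omega)
      have h5 : ((Finset.Icc 1 N).filter B) ⊆ ((Finset.Icc 1 (N / 2)).filter B) ∪
          ((Finset.Icc 1 N).filter (fun n => N / 2 < n ∧ B n)) := by
        intro n hn
        rw [Finset.mem_filter, Finset.mem_Icc] at hn
        rw [Finset.mem_union, Finset.mem_filter, Finset.mem_filter, Finset.mem_Icc, Finset.mem_Icc]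
        rcases le_or_gt n (N / 2) with h6 | h6
        · exact Or.inl ⟨⟨hn.1.1, h6⟩, hn.2⟩
        · exact Or.inr ⟨hn.1, h6, hn.2⟩
      have h6 : (((Finset.Icc 1 N).filter B).card : ℝ) ≤
          (((Finset.Icc 1 (N / 2)).filter B).card : ℝ) +
            (((Finset.Icc 1 N).filter (fun n => N / 2 < n ∧ B n)).card : ℝ) := by
        exact_mod_cast (Finset.card_le_card h5).trans (Finset.card_union_le _ _)
      have h7 : (((Finset.Icc 1 N).filter (fun n => N / 2 < n ∧ B n)).card : ℝ) * ((N : ℝ) / 2) ^ v ≤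
          |K| * N := by
        have h8 : (((Finset.Icc 1 N).filter (fun n => N / 2 < n ∧ B n)).card : ℝ) * ((N : ℝ) / 2) ^ v ≤
            ∑ n ∈ (Finset.Icc 1 N).filter (fun n => N / 2 < n ∧ B n), w n := by
          rw [← nsmul_eq_mul]
          refine Finset.card_nsmul_le_sum _ _ _ fun n hn => ?_
          rw [Finset.mem_filter, Finset.mem_Icc] at hn
          refine le_trans ?_ (hB n hn.1.1 hn.2.2)
          refine Real.rpow_le_rpow (by positivity) ?_ hv.le
          have h9 : N ≤ 2 * n := by omega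
          have h10 : (N : ℝ) ≤ 2 * n := by exact_mod_cast h9
          linarith
        refine h8.trans ((Finset.sum_le_sum_of_subset_of_nonneg (Finset.filter_subset _ _)
          (fun n _ _ => hw n)).trans ((hK N h3).trans ?_))
        exact mul_le_mul_of_nonneg_right (le_abs_self K) (Nat.cast_nonneg _)
      have h8 : (((Finset.Icc 1 N).filter (fun n => N / 2 < n ∧ B n)).card : ℝ) ≤ K' * (N : ℝ) ^ u := by
        have hpos : 0 < ((N : ℝ) / 2) ^ v := by positivity
        rw [← le_div_iff₀ hpos] at h7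
        refine h7.trans (le_of_eq ?_)
        rw [Real.div_rpow (by positivity) (by norm_num), hK', hu, Real.rpow_sub (by linarith),
          Real.rpow_one]
        field_simp
      have h9 : ((N / 2 : ℕ) : ℝ) ^ u ≤ q * (N : ℝ) ^ u := by
        rw [hq, ← Real.mul_rpow (by norm_num) (by positivity)]
        refine Real.rpow_le_rpow (Nat.cast_nonneg _) ?_ hu0.le
        have h10 : ((N / 2 : ℕ) : ℝ) ≤ (N : ℝ) / 2 := Nat.cast_div_le
        linarith
      calc (((Finset.Icc 1 N).filter B).card : ℝ) ≤ C * ((N / 2 : ℕ) : ℝ) ^ u + K' * (N : ℝ) ^ u := by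
            linarith
        _ ≤ C * (q * (N : ℝ) ^ u) + C * (1 - q) * (N : ℝ) ^ u :=
            add_le_add (mul_le_mul_of_nonneg_left h9 hC0.le)
              (mul_le_mul_of_nonneg_right hC1 (by positivity))
        _ = C * (N : ℝ) ^ u := by ring

end Pool.Agent.Q21.DW
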