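import Pool.Agent.Q21.DW.Cnt

set_option autoImplicit false

/-! Power savings from dyadic intervals. -/

namespace Pool.Agent.Q21.DW

open Filter Set

open Classical in
/-- a bound for the exceptions in `(N / 2, N]` gives one for all exceptions -/
lemma ps_dyadic {s : ℝ} (hs : 0 ≤ s) {B : ℕ → Prop}
    (h : ∀ t : ℝ, s < t → ∃ C : ℝ, ∀ N : ℕ, 1 ≤ N →
      (((Finset.Icc 1 N).filter (fun n => N < 2 * n ∧ B n)).card : ℝ) ≤ C * (N : ℝ) ^ t) :
    PS s B := by
  intro t ht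
  have ht0 : 0 < t := lt_of_le_of_lt hs ht
  obtain ⟨C, hC⟩ := h t ht
  have h2 : (1 / 2 : ℝ) ^ t < 1 := Real.rpow_lt_one (by norm_num) (by norm_num) ht0
  have h3 : 0 < 1 - (1 / 2 : ℝ) ^ t := by linarith
  have h4 : 0 < (1 / 2 : ℝ) ^ t := by positivity
  set A : ℝ := |C| / (1 - (1 / 2 : ℝ) ^ t) with hA
  have hA0 : 0 ≤ A := by positivity
  have hA1 : |C| = A * (1 - (1 / 2 : ℝ) ^ t) := by rw [hA]; field_simp
  refine ⟨A, fun N hN => ?_⟩
  induction N using Nat.strong_induction_on with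
  | _ N ih =>
    have hN0 : (0 : ℝ) < N := by exact_mod_cast hN
    have hsub : (Finset.Icc 1 N).filter B ⊆ (Finset.Icc 1 (N / 2)).filter B ∪
        (Finset.Icc 1 N).filter (fun n => N < 2 * n ∧ B n) := by
      intro n hn
      rw [Finset.mem_filter, Finset.mem_Icc] at hn
      rw [Finset.mem_union, Finset.mem_filter, Finset.mem_Icc, Finset.mem_filter, Finset.mem_Icc]
      by_cases h5 : N < 2 * n
      · exact Or.inr ⟨hn.1, h5, hn.2⟩
      · exact Or.inl ⟨⟨hn.1.1, by omega⟩, hn.2⟩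
    have h6 : (((Finset.Icc 1 N).filter B).card : ℝ) ≤ (((Finset.Icc 1 (N / 2)).filter B).card : ℝ) +
        (((Finset.Icc 1 N).filter (fun n => N < 2 * n ∧ B n)).card : ℝ) := by
      exact_mod_cast (Finset.card_le_card hsub).trans (Finset.card_union_le _ _)
    have h7 : (((Finset.Icc 1 (N / 2)).filter B).card : ℝ) ≤ A * ((1 / 2 : ℝ) ^ t * (N : ℝ) ^ t) := by
      rcases Nat.lt_or_ge (N / 2) 1 with h8 | h8
      · rw [Finset.Icc_eq_empty (by omega)]
        simp only [Finset.filter_empty, Finset.card_empty, Nat.cast_zero]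
        positivity
      · refine (ih (N / 2) (by omega) h8).trans (mul_le_mul_of_nonneg_left ?_ hA0)
        rw [← Real.mul_rpow (by norm_num) hN0.le]
        refine Real.rpow_le_rpow (Nat.cast_nonneg _) ?_ ht0.le
        have := @Nat.cast_div_le ℝ _ _ _ N 2
        push_cast at this
        linarith
    have h8 : (((Finset.Icc 1 N).filter (fun n => N < 2 * n ∧ B n)).card : ℝ) ≤ |C| * (N : ℝ) ^ t :=
      (hC N hN).trans (mul_le_mul_of_nonneg_right (le_abs_self C) (by positivity))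
    rw [hA1] at h8
    refine h6.trans ((add_le_add h7 h8).trans (le_of_eq ?_))
    ring

/-- it is enough to bound the exceptions in `(N / 2, N]` for large `N` -/
lemma ps_dyadic' {s : ℝ} (hs : 0 ≤ s) {B : ℕ → Prop}
    (h : ∀ t : ℝ, s < t → ∃ C : ℝ, ∃ N₀ : ℕ, ∀ N : ℕ, N₀ ≤ N → 1 ≤ N →
      (({n : ℕ | 1 ≤ n ∧ n ≤ N ∧ N < 2 * n ∧ B n} : Set ℕ).ncard : ℝ) ≤ C * (N : ℝ) ^ t) :
    PS s B := by
  classical
  refine ps_dyadic hs fun t ht => ?_
  have ht0 : 0 < t := lt_of_le_of_lt hs ht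
  obtain ⟨C, N₀, hC⟩ := h t ht
  refine ⟨|C| + N₀, fun N hN => ?_⟩
  have hN1 : (1 : ℝ) ≤ N := by exact_mod_cast hN
  have h1 : (1 : ℝ) ≤ (N : ℝ) ^ t := Real.one_le_rpow hN1 ht0.le
  rcases Nat.lt_or_ge N N₀ with h2 | h2
  · have h3 : (((Finset.Icc 1 N).filter (fun n => N < 2 * n ∧ B n)).card : ℝ) ≤ N := by
      have := Finset.card_filter_le (Finset.Icc 1 N) (fun n => N < 2 * n ∧ B n)
      rw [Nat.card_Icc] at this
      exact_mod_cast (by omega : _ ≤ N)
    have h4 : (N : ℝ) ≤ N₀ := by exact_mod_cast h2.le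
    calc _ ≤ (N : ℝ) := h3
      _ ≤ N₀ := h4
      _ = N₀ * 1 := (mul_one _).symm
      _ ≤ (|C| + N₀) * (N : ℝ) ^ t := by
          refine mul_le_mul ?_ h1 (by norm_num) (by positivity)
          linarith [abs_nonneg C]
  · have h3 : (((Finset.Icc 1 N).filter (fun n => N < 2 * n ∧ B n)).card : ℝ) =
        (({n : ℕ | 1 ≤ n ∧ n ≤ N ∧ N < 2 * n ∧ B n} : Set ℕ).ncard : ℝ) := by
      rw [← Set.ncard_coe_finset]
      congr 2
      ext n
      simp only [Finset.coe_filter, Finset.mem_Icc, Set.mem_ofPred_eq, and_assoc]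
    rw [h3]
    refine (hC N h2 hN).trans ?_
    refine mul_le_mul_of_nonneg_right ?_ (by positivity)
    have := le_abs_self C
    have : (0 : ℝ) ≤ N₀ := Nat.cast_nonneg _
    linarith

end Pool.Agent.Q21.DW
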